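import Mathlib
import Pool.Agent.Lib_helper28.Heat.Gauss

/-! Orthogonality of the Hermite polynomials and the tail spaces in one variable. -/

set_option autoImplicit false

open MeasureTheory Set Polynomial Filter Topology

namespace Pool.Agent.Lib9.Heat

open Pool.Agent.Lib28.Heat

noncomputable section

/-- A sequence of polynomials satisfying the recursion of the probabilists' Hermite polynomials. -/
def IsHermite (h : ℕ → ℝ[X]) : Prop := h 0 = 1 ∧ ∀ j, h (j + 1) = X * h j - derivative (h j)

variable {h : ℕ → ℝ[X]}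

lemma IsHermite.monic (H : IsHermite h) (j : ℕ) : (h j).Monic ∧ (h j).natDegree = j := by
  induction j with
  | zero => rw [H.1]; exact ⟨monic_one, natDegree_one⟩
  | succ j ih =>
    obtain ⟨h1, h2⟩ := ih
    have hX : (X * h j).Monic := monic_X.mul h1
    have hXd : (X * h j).natDegree = j + 1 := by
      rw [monic_X.natDegree_mul h1, natDegree_X, h2, add_comm]
    have hd : (derivative (h j)).degree < (X * h j).degree := by
      rw [degree_eq_natDegree hX.ne_zero, hXd]
      refine lt_of_le_of_lt degree_le_natDegree ?_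
      have := natDegree_derivative_le (h j)
      exact_mod_cast (by omega : (derivative (h j)).natDegree < j + 1)
    refine ⟨?_, ?_⟩
    · rw [H.2]
      exact hX.sub_of_left hd
    · rw [H.2, natDegree_sub_eq_left_of_natDegree_lt, hXd]
      rw [hXd]
      have := natDegree_derivative_le (h j)
      omega

/-- `h_j` is orthogonal to all polynomials of degree `< j`. -/
lemma IsHermite.orth (H : IsHermite h) (j : ℕ) : ∀ φ : ℝ[X], φ.natDegree < j →
    ∫ y : ℝ, (h j).eval y * φ.eval y * Real.exp (-(1 / 2) * y ^ 2) = 0 := by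
  induction j with
  | zero => intro φ hφ; omega
  | succ j ih =>
    intro φ hφ
    have e : ∀ y : ℝ, (h (j + 1)).eval y * φ.eval y * Real.exp (-(1 / 2) * y ^ 2) =
        φ.eval y * (2 * (1 / 2) * y * (h j).eval y - (h j).derivative.eval y) *
          Real.exp (-(1 / 2) * y ^ 2) := by
      intro y
      rw [H.2]
      simp only [eval_sub, eval_mul, eval_X]
      ring
    simp_rw [e]
    rw [← ibp (by norm_num : (0 : ℝ) < 1 / 2) φ (h j)]
    rcases Nat.eq_zero_or_pos j with rfl | hj
    · have h0 : φ.derivative = 0 := by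
        rw [derivative_eq_zero]
        omega
      simp [h0]
    · have h1 := ih φ.derivative (by
        have := natDegree_derivative_le φ
        omega)
      rw [← h1]
      refine integral_congr_ae (Eventually.of_forall fun y => ?_)
      simp only
      ring

/-- Decomposition. -/
lemma IsHermite.decomp (H : IsHermite h) (d : ℕ) : ∀ (N : ℕ) (g : ℝ[X]), g.natDegree < N →
    ∃ s ∈ Submodule.span ℝ {q : ℝ[X] | ∃ j, d ≤ j ∧ q = h j},
      (g - s).degree < (d : WithBot ℕ) := by
  intro N
  induction N with
  | zero => intro g hg; omega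
  | succ N ih =>
    intro g hg
    by_cases hd : g.degree < (d : WithBot ℕ)
    · exact ⟨0, Submodule.zero_mem _, by simpa using hd⟩
    · have hg0 : g ≠ 0 := by
        rintro rfl
        apply hd
        rw [degree_zero]
        exact WithBot.bot_lt_coe d
      have hdg : d ≤ g.natDegree := by
        rw [degree_eq_natDegree hg0] at hd
        exact_mod_cast not_lt.1 hd
      obtain ⟨hm, hmd⟩ := H.monic g.natDegree
      set g' : ℝ[X] := g - C g.leadingCoeff * h g.natDegree with hg'
      have hlt : g'.degree < g.degree := by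
        refine degree_sub_lt ?_ hg0 ?_
        · rw [degree_C_mul (leadingCoeff_ne_zero.2 hg0), degree_eq_natDegree hm.ne_zero, hmd,
            degree_eq_natDegree hg0]
        · rw [leadingCoeff_mul, leadingCoeff_C, hm.leadingCoeff, mul_one]
      have hlt' : g' = 0 ∨ g'.natDegree < N := by
        by_cases h0 : g' = 0
        · exact Or.inl h0
        · right
          have := natDegree_lt_natDegree h0 hlt
          omega
      have hmem : C g.leadingCoeff * h g.natDegree ∈
          Submodule.span ℝ {q : ℝ[X] | ∃ j, d ≤ j ∧ q = h j} := by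
        rw [← smul_eq_C_mul]
        exact Submodule.smul_mem _ _ (Submodule.subset_span ⟨_, hdg, rfl⟩)
      rcases hlt' with h0 | h1
      · refine ⟨C g.leadingCoeff * h g.natDegree, hmem, ?_⟩
        rw [← hg', h0, degree_zero]
        exact WithBot.bot_lt_coe d
      · obtain ⟨s, hs, hs'⟩ := ih g' h1
        refine ⟨C g.leadingCoeff * h g.natDegree + s, Submodule.add_mem _ hmem hs, ?_⟩
        have e : g - (C g.leadingCoeff * h g.natDegree + s) = g' - s := by rw [hg']; ring
        rw [e]
        exact hs'

lemma gauss_int (p q : ℝ[X]) :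
    Integrable fun y : ℝ => p.eval y * q.eval y * Real.exp (-(1 / 2) * y ^ 2) :=
  mul_int (by norm_num : (0 : ℝ) < 1 / 2) p q

/-- A polynomial orthogonal to all polynomials of degree `< d` is a combination of the Hermite
polynomials of degree `≥ d`. -/
theorem IsHermite.tail (H : IsHermite h) (d : ℕ) (g : ℝ[X])
    (hg : ∀ φ : ℝ[X], φ.natDegree < d → ∫ y, g.eval y * φ.eval y * Real.exp (-(y ^ 2) / 2) = 0) :
    g ∈ Submodule.span ℝ {q : ℝ[X] | ∃ j, d ≤ j ∧ q = h j} := by
  obtain ⟨s, hs, hd⟩ := H.decomp d (g.natDegree + 1) g (by omega)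
  rcases Nat.eq_zero_or_pos d with rfl | hdpos
  · have h0 : g - s = 0 := by
      by_contra h0
      rw [degree_eq_natDegree h0] at hd
      exact absurd hd (by exact_mod_cast Nat.not_lt_zero _)
    rw [sub_eq_zero.1 h0]
    exact hs
  set φ : ℝ[X] := g - s with hφ
  have hφd : φ.natDegree < d := by
    by_cases h0 : φ = 0
    · rw [h0, natDegree_zero]; exact hdpos
    · rw [degree_eq_natDegree h0] at hd
      exact_mod_cast hd
  have h1 : ∫ y : ℝ, g.eval y * φ.eval y * Real.exp (-(1 / 2) * y ^ 2) = 0 := by
    rw [← hg φ hφd]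
    refine integral_congr_ae (Eventually.of_forall fun y => ?_)
    simp only
    congr 2
    ring
  have h2 : ∫ y : ℝ, s.eval y * φ.eval y * Real.exp (-(1 / 2) * y ^ 2) = 0 := by
    refine Submodule.span_induction (p := fun s _ =>
      ∫ y : ℝ, s.eval y * φ.eval y * Real.exp (-(1 / 2) * y ^ 2) = 0) ?_ ?_ ?_ ?_ hs
    · rintro q ⟨j, hj, rfl⟩
      exact H.orth j φ (lt_of_lt_of_le hφd hj)
    · simp
    · intro p q _ _ hp hq
      have : ∀ y : ℝ, (p + q).eval y * φ.eval y * Real.exp (-(1 / 2) * y ^ 2) =
          p.eval y * φ.eval y * Real.exp (-(1 / 2) * y ^ 2) +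
          q.eval y * φ.eval y * Real.exp (-(1 / 2) * y ^ 2) := by
        intro y; rw [eval_add]; ring
      simp_rw [this]
      rw [integral_add (gauss_int p φ) (gauss_int q φ), hp, hq, add_zero]
    · intro a p _ hp
      have : ∀ y : ℝ, (a • p).eval y * φ.eval y * Real.exp (-(1 / 2) * y ^ 2) =
          a * (p.eval y * φ.eval y * Real.exp (-(1 / 2) * y ^ 2)) := by
        intro y; rw [eval_smul, smul_eq_mul]; ring
      simp_rw [this]
      rw [integral_const_mul, hp, mul_zero]
  have h3 : ∫ y : ℝ, φ.eval y * φ.eval y * Real.exp (-(1 / 2) * y ^ 2) = 0 := by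
    have e : ∀ y : ℝ, φ.eval y * φ.eval y * Real.exp (-(1 / 2) * y ^ 2) =
        g.eval y * φ.eval y * Real.exp (-(1 / 2) * y ^ 2) -
        s.eval y * φ.eval y * Real.exp (-(1 / 2) * y ^ 2) := by
      intro y
      rw [hφ, eval_sub]
      ring
    rw [show (fun y : ℝ => φ.eval y * φ.eval y * Real.exp (-(1 / 2) * y ^ 2)) = fun y =>
        g.eval y * φ.eval y * Real.exp (-(1 / 2) * y ^ 2) -
        s.eval y * φ.eval y * Real.exp (-(1 / 2) * y ^ 2) from funext e,
      integral_sub (gauss_int g φ) (gauss_int s φ), h1, h2, sub_zero]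
  have h4 : (fun y : ℝ => φ.eval y * φ.eval y * Real.exp (-(1 / 2) * y ^ 2)) = 0 := by
    have hc : Continuous fun y : ℝ => φ.eval y * φ.eval y * Real.exp (-(1 / 2) * y ^ 2) := by
      fun_prop
    have hn : (0 : ℝ → ℝ) ≤ fun y : ℝ => φ.eval y * φ.eval y * Real.exp (-(1 / 2) * y ^ 2) :=
      fun y => mul_nonneg (mul_self_nonneg _) (Real.exp_pos _).le
    have h5 := (integral_eq_zero_iff_of_nonneg hn (gauss_int φ φ)).1 h3
    exact (Continuous.ae_eq_iff_eq volume hc continuous_zero).1 h5
  have h6 : φ = 0 := by
    refine Polynomial.funext fun y => ?_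
    have := congrFun h4 y
    simp only [Pi.zero_apply, mul_eq_zero, or_self, (Real.exp_pos _).ne', or_false] at this
    rw [this, eval_zero]
  rw [hφ, sub_eq_zero] at h6
  rw [h6]
  exact hs

end

end Pool.Agent.Lib9.Heat
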