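import Pool.Agent.Lib_helper9.Heat.Strong
import Pool.Agent.Lib_helper9.Heat.Hermite

/-! The additive counterexample in terms of the spans of the Hermite products and of the norms
`eLpNorm`. -/

set_option autoImplicit false

open MeasureTheory ProbabilityTheory Polynomial

namespace Pool.Agent.Lib9.Heat

open Pool.Agent.Lib28.Heat Pool.Agent.Lib28.Heat.PM

noncomputable section

lemma hermite_isHermite : IsHermite fun j => (hermite j).map (Int.castRingHom ℝ) := by
  refine ⟨by simp, fun j => ?_⟩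
  simp only [hermite_succ, Polynomial.map_sub, Polynomial.map_mul, map_X, derivative_map]

/-- Additive polynomials with the tail condition lie in the span of the Hermite products of total
degree at least `d`. -/
lemma sum_mem {d n : ℕ} {g : ℝ[X]}
    (hg : ∀ φ : ℝ[X], φ.natDegree < d → ∫ y, g.eval y * φ.eval y * Real.exp (-(y ^ 2) / 2) = 0) :
    (fun x : Fin n → ℝ => ∑ i, g.eval (x i)) ∈ Submodule.span ℝ
      {f : (Fin n → ℝ) → ℝ | ∃ k : Fin n → ℕ, d ≤ ∑ i, k i ∧
        f = fun x => ∏ i, aeval (x i) (hermite (k i))} := by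
  have h1 := hermite_isHermite.tail d g hg
  let L : Fin n → ℝ[X] →ₗ[ℝ] ((Fin n → ℝ) → ℝ) := fun i =>
    { toFun := fun q x => q.eval (x i)
      map_add' := fun p q => by ext x; simp
      map_smul' := fun a q => by ext x; simp }
  have h2 : ∀ i, L i g ∈ Submodule.span ℝ
      {f : (Fin n → ℝ) → ℝ | ∃ k : Fin n → ℕ, d ≤ ∑ i, k i ∧
        f = fun x => ∏ i, aeval (x i) (hermite (k i))} := by
    intro i
    have h3 : Submodule.map (L i) (Submodule.span ℝ
        {q : ℝ[X] | ∃ j, d ≤ j ∧ q = (hermite j).map (Int.castRingHom ℝ)}) ≤ Submodule.span ℝ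
      {f : (Fin n → ℝ) → ℝ | ∃ k : Fin n → ℕ, d ≤ ∑ i, k i ∧
        f = fun x => ∏ i, aeval (x i) (hermite (k i))} := by
      rw [Submodule.map_span_le]
      rintro q ⟨j, hj, rfl⟩
      refine Submodule.subset_span ⟨Pi.single i j, ?_, ?_⟩
      · rw [Finset.sum_pi_single']
        simpa using hj
      · funext x
        change ((hermite j).map (Int.castRingHom ℝ)).eval (x i) = _
        rw [Finset.prod_eq_single i]
        · rw [Pi.single_eq_same, aeval_def, eval_map]
          rfl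
        · intro b _ hb
          rw [Pi.single_eq_of_ne hb]
          simp
        · intro h
          exact absurd (Finset.mem_univ i) h
    exact h3 (Submodule.mem_map_of_mem h1)
  have h4 : (fun x : Fin n → ℝ => ∑ i, g.eval (x i)) = ∑ i, L i g := by
    funext x
    rw [Finset.sum_apply]
    rfl
  rw [h4]
  exact Submodule.sum_mem _ fun i _ => h2 i

/-- The semigroup on additive polynomials. -/
lemma mehler_sum (n : ℕ) (g : ℝ[X]) (t : ℝ) (x : Fin n → ℝ) :
    ∫ y, (∑ i, g.eval ((Real.exp (-t) • x + Real.sqrt (1 - Real.exp (-2 * t)) • y) i))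
      ∂(Measure.pi (fun _ : Fin n => gaussianReal 0 1)) =
      ∑ i : Fin n, Pt t (fun u => g.eval u) (x i) := by
  have h1 := additive_mehler n g t x
  have h2 : ∀ z : Fin n → ℝ, MvPolynomial.eval z
      (∑ i : Fin n, Polynomial.aeval (MvPolynomial.X i) g) = ∑ i : Fin n, g.eval (z i) := by
    intro z
    rw [map_sum]
    exact Finset.sum_congr rfl fun i _ => PM.eval_aeval g z i
  simp_rw [h2] at h1
  rw [← h1]
  rfl

lemma eLp_eq {n : ℕ} {f : (Fin n → ℝ) → ℝ} (hf : MemLp f 2 (gn n)) :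
    eLpNorm f (4 / 3) (gn n) =
      ENNReal.ofReal ((∫ x, |f x| ^ (4 / 3 : ℝ) ∂(gn n)) ^ (1 / (4 / 3) : ℝ)) := by
  have h43 : (4 / 3 : ENNReal) ≤ 2 := by
    rw [ENNReal.div_le_iff (by norm_num) (by norm_num)]
    norm_num
  have hf' : MemLp f (4 / 3) (gn n) := hf.mono_exponent h43
  have ht : (4 / 3 : ENNReal).toReal = 4 / 3 := by
    rw [ENNReal.toReal_div]
    norm_num
  rw [hf'.eLpNorm_eq_integral_rpow_norm (by norm_num) (ENNReal.div_ne_top (by norm_num) (by norm_num)),
    ht, one_div]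
  rfl

/-- The core statement in terms of the Hermite spans. -/
theorem own_core (K : ℝ) (hK : 0 < K) : ∃ (D n : ℕ) (f : (Fin n → ℝ) → ℝ), 1 ≤ D ∧ 1 ≤ n ∧
    f ∈ Submodule.span ℝ {f : (Fin n → ℝ) → ℝ | ∃ k : Fin n → ℕ, D ≤ ∑ i, k i ∧
        f = fun x => ∏ i, aeval (x i) (hermite (k i))} ∧
    eLpNorm f (4 / 3) (gn n) ≤ 1 ∧
    ENNReal.ofReal (Real.exp (-12) / 6400) ≤
      eLpNorm (fun x => ∫ y, f (Real.exp (-(K / D)) • x +
        Real.sqrt (1 - Real.exp (-2 * (K / D))) • y) ∂(gn n)) (4 / 3) (gn n) := by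
  obtain ⟨D, n, g, hD, hn, hg, hup, hlow⟩ := heat_strong K hK
  refine ⟨D, n, (1 / 80 : ℝ) • fun x : Fin n → ℝ => ∑ i, g.eval (x i), hD, hn,
    Submodule.smul_mem _ _ (sum_mem hg), ?_, ?_⟩
  · rw [eLpNorm_const_smul, eLp_eq (memLp_sum (memLp_poly2 g))]
    rw [show ‖(1 / 80 : ℝ)‖ₑ = ENNReal.ofReal (1 / 80) by
      rw [Real.enorm_eq_ofReal (by norm_num)], ← ENNReal.ofReal_mul (by norm_num),
      ← ENNReal.ofReal_one]
    apply ENNReal.ofReal_le_ofReal
    linarith
  · obtain ⟨q, hq⟩ := Pt_poly (K / D) g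
    have e : (fun x : Fin n → ℝ => ∫ y, ((1 / 80 : ℝ) • fun x : Fin n → ℝ =>
        ∑ i, g.eval (x i)) (Real.exp (-(K / D)) • x +
        Real.sqrt (1 - Real.exp (-2 * (K / D))) • y) ∂(gn n)) =
        (1 / 80 : ℝ) • fun x : Fin n → ℝ => ∑ i, q.eval (x i) := by
      funext x
      simp only [Pi.smul_apply, smul_eq_mul]
      rw [integral_const_mul, ← Finset.sum_congr rfl fun i _ => hq (x i)]
      congr 1
      exact mehler_sum n g (K / D) x
    rw [e, eLpNorm_const_smul, eLp_eq (memLp_sum (memLp_poly2 q))]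
    rw [show ‖(1 / 80 : ℝ)‖ₑ = ENNReal.ofReal (1 / 80) by
      rw [Real.enorm_eq_ofReal (by norm_num)], ← ENNReal.ofReal_mul (by norm_num)]
    apply ENNReal.ofReal_le_ofReal
    simp_rw [hq] at hlow
    linarith

end

end Pool.Agent.Lib9.Heat
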